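import Mathlib
import Pool.Agent.X211.LX.Forb

set_option autoImplicit false

/-!
# List edge colourings from almost full lists

Let `P` be a set of colours (the palette), let `G` be any finite simple graph of maximum degree
`Δ` and let every edge have a list which contains all but at most `s` of the colours of `P`. If
`|P| ≥ Δ + 1 + 334 s log (Δ + 1)` then the edges of `G` can be coloured properly from these lists.
The colouring may even be prescribed on an arbitrary subgraph `H` of maximum degree `t`, if
`|P| ≥ Δ + 1 + 334 (s + t) log (Δ + 1)`.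

Proof. Colour the edges properly with `Δ + 1` colours (Vizing) and randomise this colouring by
flipping random short Kempe chains (Lovász local lemma; the theorem on random Kempe flips of the
starting library, with the missing colours of the edge as tests). After the removal of
`O(log Δ)` edges at every vertex all but `O((s + t) log Δ)` edges at every vertex have a colour of
their list. The exceptional edges are coloured greedily with the remaining colours of `P`.
-/

namespace Pool.Agent.Results.MP_2f9829_co.AlmostFullLists

/-- The colours `f` form a proper edge colouring of `G`: edges with a common end get different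
colours. -/
def ProperEdge {V : Type} (G : SimpleGraph V) (f : Sym2 V → ℕ) : Prop :=
  ∀ u v w, G.Adj u v → G.Adj u w → v ≠ w → f s(u, v) ≠ f s(u, w)

/-- **List edge colourings from almost full lists.**  Let `G` be a finite graph of maximum degree
`Δ`, `P` a finite set of colours, and let the list `L e` of every edge `e` contain all but at most
`s` colours of `P`. Let `f₀` be a proper edge colouring (with any colours) of a subgraph `H` of
`G` with all degrees at most `t`. If `|P| ≥ Δ + 1 + 334 (s + t) log (Δ + 1)`, then `G` has a
proper edge colouring which is `f₀` on `H` and gives every other edge a colour from its list (and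
from `P`). -/
theorem result (V : Type) [Fintype V] (G : SimpleGraph V) [DecidableRel G.Adj] (P : Finset ℕ)
    (s t : ℕ)
    (hP : (G.maxDegree : ℝ) + 1 + 334 * (s + t) * Real.log (G.maxDegree + 1) ≤ P.card)
    (L : Sym2 V → Finset ℕ) (hL : ∀ e ∈ G.edgeSet, (P \ L e).card ≤ s)
    (H : SimpleGraph V) (ht : ∀ v, (H.neighborSet v).ncard ≤ t)
    (f₀ : Sym2 V → ℕ) (h0 : ProperEdge H f₀) :
    ∃ f : Sym2 V → ℕ, ProperEdge G f ∧ (∀ e ∈ H.edgeSet, f e = f₀ e) ∧
      ∀ e ∈ G.edgeSet, e ∉ H.edgeSet → f e ∈ P ∩ L e := by
  classical
  have hdeg : ∀ v, (G.neighborSet v).ncard ≤ G.maxDegree := by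
    intro v
    rw [← Nat.card_coe_set_eq, Nat.card_eq_fintype_card, SimpleGraph.card_neighborSet_eq_degree]
    exact G.degree_le_maxDegree v
  let g : ℕ → ℕ := fun i => if h : i < P.card then (P.equivFin.symm ⟨i, h⟩ : ℕ) else 0
  have hgP : ∀ i, i < P.card → g i ∈ P := by
    intro i hi
    simp only [g, dif_pos hi]
    exact (P.equivFin.symm ⟨i, hi⟩).2
  have hgi : ∀ i j, i < P.card → j < P.card → g i = g j → i = j := by
    intro i j hi hj h
    simp only [g, dif_pos hi, dif_pos hj] at h
    have h1 := P.equivFin.symm.injective (Subtype.ext h)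
    exact congrArg Fin.val h1
  let F : Sym2 V → Finset ℕ := fun e => (Finset.range P.card).filter fun i => g i ∉ L e
  have hF : ∀ u v, G.Adj u v → (F s(u, v)).card ≤ s := by
    intro u v h
    refine le_trans ?_ (hL s(u, v) (G.mem_edgeSet.2 h))
    refine Finset.card_le_card_of_injOn g ?_ ?_
    · intro i hi
      have h1 := Finset.mem_filter.1 hi
      exact Finset.mem_sdiff.2 ⟨hgP i (Finset.mem_range.1 h1.1), h1.2⟩
    · intro i hi j hj hij
      exact hgi i j (Finset.mem_range.1 (Finset.mem_filter.1 hi).1)
        (Finset.mem_range.1 (Finset.mem_filter.1 hj).1) hij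
  let T : V → Finset ℕ := fun v => (Finset.range P.card).filter fun i =>
    g i ∈ (H.neighborSet v).toFinset.image fun u => f₀ s(v, u)
  have hT : ∀ v, (T v).card ≤ t := by
    intro v
    have h1 : (T v).card ≤ ((H.neighborSet v).toFinset.image fun u => f₀ s(v, u)).card := by
      refine Finset.card_le_card_of_injOn g ?_ ?_
      · intro i hi
        exact (Finset.mem_filter.1 hi).2
      · intro i hi j hj hij
        exact hgi i j (Finset.mem_range.1 (Finset.mem_filter.1 hi).1)
          (Finset.mem_range.1 (Finset.mem_filter.1 hj).1) hij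
    refine h1.trans (Finset.card_image_le.trans ?_)
    rw [← Set.ncard_eq_toFinset_card']
    exact ht v
  have hTe : ∀ u v i, H.Adj u v → i < P.card → g i = f₀ s(u, v) → i ∈ T u := by
    intro u v i h hi hgi'
    refine Finset.mem_filter.2 ⟨Finset.mem_range.2 hi, Finset.mem_image.2 ⟨v, ?_, hgi'.symm⟩⟩
    rw [Set.mem_toFinset]
    exact h
  obtain ⟨f, hf1, hf2⟩ := Pool.Agent.X211.LX.forb' G G.maxDegree t s P.card hdeg
    T hT F hF (by
      rw [add_comm (t : ℝ) s]
      exact hP)
  have hlist : ∀ u v, G.Adj u v → g (f s(u, v)) ∈ P ∩ L s(u, v) := by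
    intro u v h
    obtain ⟨h1, h2, -⟩ := hf1 u v h
    refine Finset.mem_inter.2 ⟨hgP _ h1, ?_⟩
    by_contra h3
    exact h2 (Finset.mem_filter.2 ⟨Finset.mem_range.2 h1, h3⟩)
  refine ⟨fun e => if e ∈ H.edgeSet then f₀ e else g (f e), ?_, ?_, ?_⟩
  · intro u v w huv huw hvw
    by_cases g1 : H.Adj u v
    · by_cases g2 : H.Adj u w
      · simp only [SimpleGraph.mem_edgeSet, if_pos g1, if_pos g2]
        exact h0 u v w g1 g2 hvw
      · simp only [SimpleGraph.mem_edgeSet, if_pos g1, if_neg g2]
        intro h
        exact (hf1 u w huw).2.2 (hTe u v _ g1 (hf1 u w huw).1 h.symm)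
    · by_cases g2 : H.Adj u w
      · simp only [SimpleGraph.mem_edgeSet, if_neg g1, if_pos g2]
        intro h
        exact (hf1 u v huv).2.2 (hTe u w _ g2 (hf1 u v huv).1 h)
      · simp only [SimpleGraph.mem_edgeSet, if_neg g1, if_neg g2]
        intro h
        exact hf2 u v w huv huw hvw (hgi _ _ (hf1 u v huv).1 (hf1 u w huw).1 h)
  · intro e he
    simp only [if_pos he]
  · intro e
    induction e using Sym2.ind with
    | _ u v =>
      intro he he'
      simp only [if_neg he']
      exact hlist u v (G.mem_edgeSet.1 he)

end Pool.Agent.Results.MP_2f9829_co.AlmostFullLists
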