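import Mathlib
import Pool.Agent.TH559.LE.Quarter

set_option autoImplicit false

/-!
# The list edge-colouring conjecture when large vertices have few large neighbours

A vertex is called large if it has more than `k` neighbours. Let all degrees be at most `D`. The
theorems below give the list edge-colouring conjecture for graphs in which every (large) vertex has
few large neighbours; nothing is assumed on the number of the small neighbours, on the number of the
edges or on the components. The main tool (extension of list edge colourings along bipartite sets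
of edges) is that of the project `Pool.Agent.TH559` in the starting repository.
-/

namespace Pool.Agent.Results.MP_2f9829_co.FewLargeNeighbours

/-- The edges of `G` can be properly coloured from all lists of at least `k` colours. -/
def EdgeChoosable {V : Type} (G : SimpleGraph V) (k : ℕ) : Prop :=
  ∀ L : G.edgeSet → Finset ℕ, (∀ e, k ≤ (L e).card) →
    ∃ f : G.edgeSet → ℕ, (∀ e, f e ∈ L e) ∧ ∀ e e', G.lineGraph.Adj e e' → f e ≠ f e'

/-- The list edge-colouring conjecture for the graph `G`. -/
def ListEdge {V : Type} (G : SimpleGraph V) : Prop :=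
  ∀ k : ℕ, G.lineGraph.Colorable k ↔ EdgeChoosable G k

/-- The number of neighbours of `v`. -/
noncomputable def deg {V : Type} (G : SimpleGraph V) (v : V) : ℕ := (G.neighborSet v).ncard

/-- The number of neighbours of `v` which have more than `k` neighbours. -/
noncomputable def large {V : Type} (G : SimpleGraph V) (k : ℕ) (v : V) : ℕ :=
  {w | G.Adj v w ∧ k < deg G w}.ncard

/-- The graph formed by the edges of `G` both ends of which have more than `k` neighbours. -/
def core {V : Type} (G : SimpleGraph V) (k : ℕ) : SimpleGraph V where
  Adj u v := G.Adj u v ∧ k < deg G u ∧ k < deg G v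
  symm := ⟨fun _ _ h => ⟨h.1.symm, h.2.2, h.2.1⟩⟩
  loopless := ⟨fun _ h => G.loopless.irrefl _ h.1⟩

/-- Let `G` be a finite simple graph in which every vertex has at most `D` neighbours, and call a
vertex large if it has more than `k` neighbours. The edges of `G` can be coloured from all lists of
size `D`, and the list edge-colouring conjecture holds for `G` if some vertex has `D` neighbours, in
each of the following cases.

(1) `2 k ≤ D + 1`, every large vertex has at most `D - k` large neighbours, and one of the following
holds: `D ≤ 3 k`; the graph induced by the large vertices is bipartite; the edges of the graph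
induced by the large vertices can be coloured from all lists of size `D`.

(2) `D + 1 ≤ 2 k`, and every vertex has at most `2 D + 1 - 3 k` large neighbours.

(3) Every vertex has at most `D - k - s` large neighbours, or `2 k ≤ D + 1` and every large vertex
has at most `D - max k s` large neighbours, where `s = ε D + K (1 + log (n + 1))`, `n` is the number
of vertices, `ε > 0` is arbitrary and `K` is a constant that depends only on `ε`. -/
theorem result :
    (∀ (V : Type) [Fintype V] (G : SimpleGraph V) (D k : ℕ), (∀ v, deg G v ≤ D) →
      2 * k ≤ D + 1 → (∀ v, k < deg G v → large G k v + k ≤ D) →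
      (D ≤ 3 * k ∨ (core G k).Colorable 2 ∨ EdgeChoosable (core G k) D) →
      EdgeChoosable G D ∧ ((∃ v, deg G v = D) → ListEdge G)) ∧
    (∀ (V : Type) [Fintype V] (G : SimpleGraph V) (D k : ℕ), (∀ v, deg G v ≤ D) →
      D + 1 ≤ 2 * k → (∀ v, large G k v + 3 * k ≤ 2 * D + 1) →
      EdgeChoosable G D ∧ ((∃ v, deg G v = D) → ListEdge G)) ∧
    (∀ ε : ℝ, 0 < ε → ∃ K : ℝ, 0 < K ∧
      ∀ (V : Type) [Fintype V] (G : SimpleGraph V) (D k : ℕ) (s : ℝ), (∀ v, deg G v ≤ D) →
        s = ε * D + K * (1 + Real.log (Fintype.card V + 1)) →
        ((∀ v, (large G k v : ℝ) + k + s ≤ D) ∨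
          (2 * k ≤ D + 1 ∧ ∀ v, k < deg G v →
            large G k v + k ≤ D ∧ (large G k v : ℝ) + s ≤ D)) →
        EdgeChoosable G D ∧ ((∃ v, deg G v = D) → ListEdge G)) := by
  classical
  have hfin : ∀ (V : Type) [Fintype V] (G : SimpleGraph V) (D : ℕ), EdgeChoosable G D →
      EdgeChoosable G D ∧ ((∃ v, deg G v = D) → ListEdge G) := by
    intro V _ G D h
    refine ⟨h, ?_⟩
    rintro ⟨v, hv⟩ k
    exact Pool.Agent.TH559.LE.lecc G D h v hv k
  have hcore : ∀ (V : Type) [Fintype V] (G : SimpleGraph V) (k : ℕ),
      Pool.Agent.TH559.LE.core G k = core G k := fun V _ G k => rfl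
  have hlarge : ∀ (V : Type) [Fintype V] (G : SimpleGraph V) (k : ℕ) (v : V),
      (Finset.univ.filter
        (fun w => G.Adj v w ∧ k < Pool.Agent.TH559.LE.dg G w)).card = large G k v := by
    intro V _ G k v
    rw [large, ← Set.ncard_coe_finset]
    congr 1
    ext w
    simp [Pool.Agent.TH559.LE.dg, deg]
  have hdgc : ∀ (V : Type) [Fintype V] (G : SimpleGraph V) (k : ℕ) (v : V),
      Pool.Agent.TH559.LE.dg (core G k) v ≤ large G k v := by
    intro V _ G k v
    rw [Pool.Agent.TH559.LE.dg, large]
    apply Set.ncard_le_ncard _ (Set.toFinite _)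
    intro w hw
    rw [SimpleGraph.mem_neighborSet] at hw
    exact ⟨hw.1, hw.2.2⟩
  refine ⟨?_, ?_, ?_⟩
  · intro V _ G D k hD h2 hk hc
    apply hfin V G D
    have hD' : ∀ v, Pool.Agent.TH559.LE.dg G v ≤ D := hD
    rcases hc with h3 | hc | hc
    · apply Pool.Agent.TH559.LE.of_not_irr G D
      intro H hH hne
      refine Pool.Agent.TH559.LE.no_irr1 G D k hD' h3 h2 ?_ H hH hne
      intro v hv
      have h5 := hlarge V G k v
      have h4 := hk v hv
      rw [← h5] at h4
      convert h4 using 2
    · apply Pool.Agent.TH559.LE.of_core G D k hD' h2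
      · intro v hv
        exact (Nat.add_le_add_right (hdgc V G k v) k).trans (hk v hv)
      · apply Pool.Agent.TH559.LE.of_not_irr
        intro H hH hne hI
        obtain ⟨C⟩ := hc
        have hlt : (⊥ : SimpleGraph V) < H := bot_lt_iff_ne_bot.2 hne
        obtain ⟨u, v, h1, -, h3⟩ := hI ⊥ hlt (fun v => C v = 0) (by
          intro u v huv _
          have h5 : C u ≠ C v := C.valid (hH huv)
          show C u = 0 ↔ ¬ C v = 0
          omega)
        have h4 : Pool.Agent.TH559.LE.dg (⊥ : SimpleGraph V) v = 0 :=
          Pool.Agent.TH559.LE.dg_bot v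
        have h5 := Pool.Agent.TH559.LE.dg_mono hH u
        have h6 : Pool.Agent.TH559.LE.dg (Pool.Agent.TH559.LE.core G k) u ≤
            Pool.Agent.TH559.LE.dg G u :=
          Pool.Agent.TH559.LE.dg_mono
            (show Pool.Agent.TH559.LE.core G k ≤ G from fun a b h => h.1) u
        have h7 := hD' u
        omega
    · apply Pool.Agent.TH559.LE.of_core G D k hD' h2
      · intro v hv
        exact (Nat.add_le_add_right (hdgc V G k v) k).trans (hk v hv)
      · exact hc
  · intro V _ G D k hD h2 hk
    apply hfin V G D
    apply Pool.Agent.TH559.LE.of_not_irr G D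
    intro H hH hne
    refine Pool.Agent.TH559.LE.no_irr2 G D k hD h2 ?_ H hH hne
    intro v
    have h5 := hlarge V G k v
    have h4 := hk v
    rw [← h5] at h4
    convert h4 using 2
  · intro ε hε
    obtain ⟨K, hK0, hK⟩ := Pool.Agent.TH559.LE.dense_k ε hε
    refine ⟨K, hK0, ?_⟩
    intro V _ G D k s hD hs hk
    apply hfin V G D
    subst hs
    exact hK V G D k hD hk

end Pool.Agent.Results.MP_2f9829_co.FewLargeNeighbours
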