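import Mathlib
import Pool.Agent.X73.LEF.Mad
import Pool.Agent.Results.MP_2f9829_co.SparseGraphs

set_option autoImplicit false

/-!
# The list edge-colouring conjecture for graphs without a given bipartite subgraph

By the starting result `SparseGraphs` the list edge-colouring conjecture holds for every graph of
maximum degree `D` and maximum average degree `a` with `34 a (1 + log D) ≤ D`.  A graph on `n`
vertices without a subgraph `F` with `ex(m, F) ≤ C m^(1+α)` has maximum average degree at most
`2 C n^α`.  If `F` is the cycle of length `2 k`, it is at most `2 k (2 k - 3) r^(1/k)`, where `r` is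
the real rank of the adjacency matrix (`Pool/Agent/X73/RK/Even.lean`).
-/

namespace Pool.Agent.Results.MP_2f9829_co.ForbiddenBipartiteSubgraphs

open Pool.Agent.X73.LEF

/-- All degrees of `G` are at most `D`, and some degree is `D`. -/
def MaxDegreeIs {V : Type} (G : SimpleGraph V) (D : ℕ) : Prop :=
  (∀ v, (G.neighborSet v).ncard ≤ D) ∧ ∃ v, (G.neighborSet v).ncard = D

/-- The list edge-colouring conjecture holds for `G`: for every `k`, the edges of `G` can be
properly coloured with `k` colours if and only if they can be properly coloured from all lists of at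
least `k` colours. -/
def ListEdgeConjectureFor {V : Type} (G : SimpleGraph V) : Prop :=
  ∀ k : ℕ, G.lineGraph.Colorable k ↔
    ∀ L : G.edgeSet → Finset ℕ, (∀ e, k ≤ (L e).card) →
      ∃ f : G.edgeSet → ℕ, (∀ e, f e ∈ L e) ∧ ∀ e e', G.lineGraph.Adj e e' → f e ≠ f e'

/-- The edges of `G` can be properly coloured from all lists of at least `D` colours. -/
def EdgeChoosable {V : Type} (G : SimpleGraph V) (D : ℕ) : Prop :=
  ∀ L : G.edgeSet → Finset ℕ, (∀ e, D ≤ (L e).card) →
    ∃ f : G.edgeSet → ℕ, (∀ e, f e ∈ L e) ∧ ∀ e e', G.lineGraph.Adj e e' → f e ≠ f e'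

theorem of_mad {V : Type} [Fintype V] (G : SimpleGraph V) (D : ℕ) (hD : MaxDegreeIs G D) (a : ℝ)
    (hmad : ∀ X : Finset V,
      ({e : V × V | e.1 ∈ X ∧ e.2 ∈ X ∧ G.Adj e.1 e.2}.ncard : ℝ) ≤ a * X.card)
    (ha : 34 * a * (1 + Real.log D) ≤ D) : ListEdgeConjectureFor G ∧ EdgeChoosable G D := by
  obtain ⟨h1, v, hv⟩ := hD
  exact ⟨fun k => SparseGraphs.result V G D h1 v hv a hmad ha k,
    fun L hL => SparseGraphs.choosable V G D h1 a hmad ha L hL⟩

/-- Let `G` be a finite graph with `n` vertices, maximum degree `D` and an adjacency matrix of real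
rank `r`. In each of the following cases the list edge-colouring conjecture holds for `G` and the
edges of `G` can be coloured from all lists of `D` colours.
(1) `G` does not contain `F`, where `ex(m, F) ≤ C m^(1+α)` for all `m ≥ 1`, and
`68 C n^α (1 + log D) ≤ D`.
(2) `G` does not contain a cycle of length `2 k`, `k ≥ 2`, and
`68 k (2 k - 3) r^(1/k) (1 + log D) ≤ D`, for instance `68 k (2 k - 3) n^(1/k) (1 + log D) ≤ D`. -/
theorem result (V : Type) [Fintype V] [DecidableEq V] (G : SimpleGraph V) [DecidableRel G.Adj]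
    (D : ℕ) (hD : MaxDegreeIs G D) :
    (∀ (U : Type) (F : SimpleGraph U) (C α : ℝ), 0 ≤ C → 0 ≤ α →
      (∀ m : ℕ, 1 ≤ m → (SimpleGraph.extremalNumber m F : ℝ) ≤ C * (m : ℝ) ^ (1 + α)) →
      F.Free G → 68 * C * (Fintype.card V : ℝ) ^ α * (1 + Real.log D) ≤ D →
      ListEdgeConjectureFor G ∧ EdgeChoosable G D) ∧
    (∀ k : ℕ, 2 ≤ k → (SimpleGraph.cycleGraph (2 * k)).Free G →
      (68 * (k * (2 * k - 3)) * ((G.adjMatrix ℝ).rank : ℝ) ^ (1 / (k : ℝ)) *
          (1 + Real.log D) ≤ D ∨
        68 * (k * (2 * k - 3)) * (Fintype.card V : ℝ) ^ (1 / (k : ℝ)) *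
          (1 + Real.log D) ≤ D) →
      ListEdgeConjectureFor G ∧ EdgeChoosable G D) := by
  refine ⟨?_, ?_⟩
  · intro U F C α hC hα hex hG hn
    apply of_mad G D hD _ (mad_free F hC hα hex G hG)
    refine le_trans (le_of_eq ?_) hn
    ring
  · intro k hk hG hn
    have hlog : 0 ≤ 1 + Real.log D := by
      have := Real.log_natCast_nonneg D
      linarith
    have hk' : (2 : ℝ) ≤ k := by exact_mod_cast hk
    have hK0 : (0 : ℝ) < k * (2 * k - 3) := by
      apply mul_pos <;> linarith
    have hn' : 68 * (k * (2 * k - 3)) * ((G.adjMatrix ℝ).rank : ℝ) ^ (1 / (k : ℝ)) *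
        (1 + Real.log D) ≤ D := by
      rcases hn with h | h
      · exact h
      · refine le_trans ?_ h
        have h1 : ((G.adjMatrix ℝ).rank : ℝ) ≤ Fintype.card V := by
          exact_mod_cast Matrix.rank_le_card_width _
        have h2 : ((G.adjMatrix ℝ).rank : ℝ) ^ (1 / (k : ℝ)) ≤
            (Fintype.card V : ℝ) ^ (1 / (k : ℝ)) :=
          Real.rpow_le_rpow (Nat.cast_nonneg _) h1 (by positivity)
        gcongr
    apply of_mad G D hD _ (mad_even G hk hG)
    refine le_trans (le_of_eq ?_) hn'
    ring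

end Pool.Agent.Results.MP_2f9829_co.ForbiddenBipartiteSubgraphs
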